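import Pool.Agent.TH540.RulesOdd

/-!
# Motivic and étale homology of Fermat varieties: surfaces of odd auxiliary degree

Let `m` be prime to the prime `p`. The eigenlines of the étale cohomology of the Fermat varieties of
degree `m` over the algebraic closure of the field with `p` elements, for the action of the product
of the groups of roots of unity, are indexed by the lists `s` of nonzero residues modulo `m` with
sum zero. A power of the Frobenius multiplies the eigenline of `s` by the expected power of `p` if
and only if `s` is a Tate character: for all units `t` the slope of `t * s` is half the number of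
entries.

Suppose that every squarefree odd number `n > 1` dividing `m` is correctable or even. Then every
Tate character of degree `m` becomes, after raising the degree to a suitable multiple prime to `p`,
a member of the closure of the characters of surfaces and of the standard characters of Aoki. So
(given Tate, Shioda and Katsura, Aoki; not formalised) the Fermat varieties of degree `m` and all
their products satisfy the Tate conjecture; as their motives are of abelian type, the conjecture
TB(X) of Jannsen holds for them, and also for the affine Fermat varieties, the complements of unions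
of coordinate hyperplanes in Fermat varieties, and all other schemes which are obtained from products
of Fermat varieties of degree `m` by adding and removing such.

A number `n` is correctable if one of `-1`, `-9`, `-5`, or both `-3` and `-5`, are powers of `p`
modulo `n`, under explicit conditions on `p` modulo three and five and on `n`. Moreover primes can be
added to `n` in certain cases. The number `n` is even if Jacobi symbols, or squares modulo the prime
divisors of `n`, force an even number of entries of order with the same prime divisors as `n`.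

For instance let `q` be a prime congruent to three modulo eight and to two or three modulo five, and
let `p` be a prime congruent to one modulo 24, but not modulo five, that generates the group of
squares modulo `q`. Then all degrees `m = 2 ^ a * q ^ b` satisfy the hypotheses: `-5` is a power of
`p` modulo `q`, and zero is the sum of three nonzero squares modulo `q`.
-/

namespace Pool.Agent.Results.MP_2ce3e7_ag.FermatOddSurfaces

open Pool.Agent.H916T

/-- Correctable numbers. -/
inductive Correctable (p : ℕ) : ℕ → Prop
  | minusOne (n k : ℕ) (h : (p : ZMod n) ^ k = -1) : Correctable p n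
  | minusNine (n l i j k : ℕ) (hf : Odd (orderOf (p : ZMod n))) (hp : p % 3 = 2)
      (h : (p : ZMod n) ^ l = -9)
      (hs : (p : ZMod n) ^ i + (p : ZMod n) ^ j + 3 * (p : ZMod n) ^ k = 0) : Correctable p n
  | minusFive (n s l i j k : ℕ) (hn : (p : ZMod n) ^ s = 1) (h5 : (p : ZMod 5) ^ s = -1)
      (h : (p : ZMod n) ^ l = -5)
      (hs : (p : ZMod n) ^ i + (p : ZMod n) ^ j + (p : ZMod n) ^ k = 0) : Correctable p n
  | minusThreeFive (n l r i j k : ℕ) (hf : Odd (orderOf (p : ZMod n))) (hp3 : p ≠ 3) (hp5 : p ≠ 5)
      (hp : p % 5 ≠ 1 ∨ p % 3 = 2) (h : (p : ZMod n) ^ l = -3) (h' : (p : ZMod n) ^ r = -5)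
      (hs : (p : ZMod n) ^ i + (p : ZMod n) ^ j = (p : ZMod n) ^ k) : Correctable p n
  | addPrime (n l j : ℕ) (hl : l.Prime) (hln : ¬ l ∣ n)
      (hg : orderOf ((p : ZMod l) ^ orderOf (p : ZMod n)) = l - 1)
      (h : (p : ZMod n) ^ j = (l : ZMod n)) : Correctable p (l * n)
  | addThree (n j : ℕ) (hf : Odd (orderOf (p : ZMod n))) (hp : p % 3 = 2) (h3 : ¬ 3 ∣ n)
      (h : (p : ZMod n) ^ j = -3) (hn : Correctable p n) : Correctable p (3 * n)

/-- `n` is congruent to three modulo four and `p`, as well as every prime divisor of `m` not dividing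
`n`, has Jacobi symbol one modulo `n`; the prime two is disregarded if four does not divide `m`. -/
def JacobiEven (p m n : ℕ) : Prop :=
  n % 4 = 3 ∧ jacobiSym p n = 1 ∧
    ∀ j : ℕ, j.Prime → j ∣ m → ¬ j ∣ n → (j = 2 → 4 ∣ m) → jacobiSym j n = 1

/-- The exponent of two in the order of `p` modulo `q`. -/
noncomputable def twoPart (p q : ℕ) : ℕ := padicValNat 2 (orderOf (p : ZMod q))

/-- The prime divisors `q` of `n` are congruent to one modulo four, `p` and the odd prime divisors
`j` of `m` not dividing `n` are squares modulo them, for each such `j` the exponent of two in the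
order of `p` modulo `j` is at most that for some `q`, and, if four divides `m`, two has odd order
modulo all odd prime divisors of `m`. -/
def SquareEven (p m n : ℕ) : Prop :=
  (∀ q : ℕ, q.Prime → q ∣ n → q % 4 = 1 ∧ IsSquare (p : ZMod q)) ∧
    (∀ j : ℕ, j.Prime → Odd j → j ∣ m → ¬ j ∣ n →
      (∀ q : ℕ, q.Prime → q ∣ n → IsSquare (j : ZMod q)) ∧
      ∃ q : ℕ, q.Prime ∧ q ∣ n ∧ twoPart p j ≤ twoPart p q) ∧
    (4 ∣ m → ∀ j : ℕ, j.Prime → Odd j → j ∣ m → Odd (orderOf (2 : ZMod j)))

/-- the auxiliary degree -/
def aux (p : ℕ) : ℕ := (if p = 3 then 1 else 3) * (if p = 5 then 1 else 5)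

lemma aux_pos (p : ℕ) : 0 < aux p := by
  unfold aux
  split_ifs <;> norm_num

lemma aux_coprime {p : ℕ} (hp : p.Prime) : p.Coprime (aux p) := by
  unfold aux
  apply Nat.Coprime.mul_right
  · split_ifs with h
    · exact Nat.coprime_one_right p
    · exact (Nat.coprime_primes hp Nat.prime_three).mpr h
  · split_ifs with h
    · exact Nat.coprime_one_right p
    · exact (Nat.coprime_primes hp Nat.prime_five).mpr h

lemma three_dvd {p : ℕ} (h : p ≠ 3) : 3 ∣ aux p := by
  unfold aux
  rw [if_neg h]
  exact Dvd.intro _ rfl

lemma five_dvd {p : ℕ} (h : p ≠ 5) : 5 ∣ aux p := by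
  unfold aux
  rw [if_neg h]
  exact Dvd.intro_left _ rfl

lemma fix_correctable {p : ℕ} {n : ℕ} (h : Correctable p n) : ∀ (M : ℕ) [NeZero M], aux p ∣ M →
    p.Coprime M → 1 < n → ¬ 2 ∣ n → ∀ u : ZMod M, addOrderOf u = n → TH540.Fix p u := by
  induction h with
  | minusOne n k h =>
    intro M _ _ _ hn1 _ u hu
    exact TH540.fix_null (TH540.fix_neg_one hu hn1.ne' h)
  | minusNine n l i j k hf hp h hs =>
    intro M _ hM hpM hn1 hn2 u hu
    have h3 : 3 ∣ M := (three_dvd (by omega)).trans hM
    exact TH540.fix_nine hpM hp h3 hu hn1.ne' hf (pow_orderOf_eq_one _) h hs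
  | minusFive n s l i j k hn h5 h hs =>
    intro M _ hM hpM hn1 hn2 u hu
    have hp5 : p ≠ 5 := by
      rintro rfl
      have h1 : ((5 : ℕ) : ZMod 5) = 0 := by decide
      rw [h1] at h5
      rcases Nat.eq_zero_or_pos s with rfl | hs0
      · rw [pow_zero] at h5
        exact absurd h5 (by decide)
      · rw [zero_pow hs0.ne'] at h5
        exact absurd h5 (by decide)
    exact TH540.fix_five hpM ((five_dvd hp5).trans hM) hu hn1.ne' hn h5 h hs
  | minusThreeFive n l r i j k hf hp3 hp5 hp h h' hs =>
    intro M _ hM hpM hn1 hn2 u hu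
    exact TH540.fix_threefive hpM ((three_dvd hp3).trans hM) ((five_dvd hp5).trans hM) hp hu hn1.ne'
      hf (pow_orderOf_eq_one _) h h' hs
  | addPrime n l j hl hln hg h =>
    intro M _ hM hpM hn1 hn2 u hu
    exact TH540.fix_null (TH540.null_pure hpM hl
      (Nat.coprime_comm.mp (hl.coprime_iff_not_dvd.mpr hln)) hu (pow_orderOf_eq_one _) hg h)
  | addThree n j hf hp h3 h hn ih =>
    intro M _ hM hpM hn1 hn2 u hu
    by_cases h1 : n = 1
    · subst h1
      refine TH540.fix_null (TH540.fix_neg_one (k := 1) hu (by norm_num) ?_)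
      rw [pow_one, TH540.cast_of_mod (D := 3 * 1) (c := 2) (by omega)]
      decide
    · have hn0 : n ≠ 0 := by rintro rfl; omega
      exact TH540.fix_three hpM hp h3 h1 hu hf (pow_orderOf_eq_one _) h
        (fun v hv => ih M hM hpM (by omega) (fun h' => hn2 (h'.mul_left 3)) v hv)

theorem result (p m : ℕ) (hp : p.Prime) (hm : 0 < m) (hpm : p.Coprime m)
    (H : ∀ n : ℕ, Squarefree n → Odd n → 1 < n → n ∣ m →
      Correctable p n ∨ JacobiEven p m n ∨ SquareEven p m n)
    (s : Multiset (ZMod m)) (hs : IsTate p m s) (hne : s ≠ 0) :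
    ∃ N : ℕ, 0 < N ∧ p.Coprime N ∧
      Generated (N * m)
        (fun t => SurfaceTate p (N * m) t ∨ ∃ q : ℕ, q.Prime ∧ q ∣ N * m ∧ Standard q (N * m) t)
        (s.map fun a => ((N * a.val : ℕ) : ZMod (N * m))) := by
  have hv : ∀ q : ℕ, TH540.vv p q = twoPart p q := fun q =>
    Nat.factorization_def _ Nat.prime_two
  obtain ⟨N, hN, hpN, h⟩ := TH540.main_fix2 hp hm hpm (aux_pos p) (aux_coprime hp) (Correctable p)
    (fun n hn M _ h1 h2 h3 h4 u hu => fix_correctable hn M h1 h2 h3 h4 u hu)
    (fun n h1 h2 h3 h4 => by
      rcases H n h1 h2 h3 h4 with h | h | ⟨ha, hb, hc⟩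
      · exact Or.inl h
      · exact Or.inr (Or.inl h)
      · refine Or.inr (Or.inr ⟨ha, fun j hj hjo hjm hjn => ?_, fun h => ?_⟩)
        · obtain ⟨e1, q, hq, hqn, hqv⟩ := hb j hj hjo hjm hjn
          exact ⟨e1, q, hq, hqn, by rw [hv, hv]; exact hqv⟩
        · intro j hj hjo hjm
          exact_mod_cast hc h j hj hjo hjm) hs hne
  exact ⟨N, hN, hpN, h (N * m) rfl⟩

end Pool.Agent.Results.MP_2ce3e7_ag.FermatOddSurfaces
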