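import Pool.Agent.Results.MP_81b968_ag.CubicHypersurfaces

/-!
# The statement TB(X) of Jannsen: reduction to complements of gates and to affine cubics

`T : Theories F E` are the motivic and `ℓ`-adic (Borel-Moore) homology groups of separated schemes
of finite type over a finite field `F` with coefficients in `E = ℚ_ℓ` (`M`: motivic homology
`H_i^M(X, ℚ(j)) ⊗ ℚ_ℓ`, `V`: the groups `H_i(X̄, ℚ_ℓ(j))`, `nu`: Frobenius minus the identity on
`V`, `C`: the absolute groups, related to `V` by the exact sequence
`V_{i+1} →(nu) V_{i+1} →(del) C_i →(rho) V_i →(nu) V_i`, `reg`: the regulator to `C`, `cl`: its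
composition with `rho`), and `Formalism` are their usual formal properties (localisation, homotopy
invariance).

`TB T j X` is the part of weight `j` of Jannsen's statement TB(X): for all `i` the regulator is an
isomorphism onto the invariants of Frobenius and the eigenvalue `1` of Frobenius is semisimple (its
generalised eigenspace is the eigenspace).
-/

set_option autoImplicit false

open CategoryTheory AlgebraicGeometry Pool.Agent.TH90.Cub

namespace Pool.Agent.Results.MP_2ce3e7_ag.GateComplements

open Pool.Agent.Results.MP_81b968_ag.CubicHypersurfaces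

variable {F E : Type} [Field F] [Field E]

/-- The part of weight `j` of the statement TB(X): for all `i`
(i) the regulator `H_i^M(X, ℚ(j)) ⊗ ℚ_ℓ → H_i(X̄, ℚ_ℓ(j))` is injective and its image is the space of
invariants of Frobenius;
(ii) the eigenvalue `1` of Frobenius on `H_i(X̄, ℚ_ℓ(j))` is semisimple. -/
def TB (T : Theories F E) (j : ℤ) (X : FSch F) : Prop :=
  ∀ i : ℤ, (∀ m, (T.cl i j X).ap m = 0 → m = 0) ∧
    (∀ v, (T.nu i j X).ap v = 0 ↔ ∃ m, (T.cl i j X).ap m = v) ∧
    (∀ v, (T.nu i j X).ap ((T.nu i j X).ap v) = 0 → (T.nu i j X).ap v = 0)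

/-- The `ℓ`-adic homology of the separated schemes of finite type is finite-dimensional. -/
def FiniteHomology (T : Theories F E) : Prop :=
  ∀ (X : Scheme.{0}) (f : X ⟶ Spec (CommRingCat.of F)), FT True F f →
    ∀ i j : ℤ, FiniteDimensional E (T.V.G i j ⟨X, f⟩)

/-- The complement in affine space over `F` of the hypersurface `h = 0`. -/
noncomputable abbrev Complement {n : ℕ} (h : MvPolynomial (Fin n) F) : FSch F :=
  SpecF (Localization.Away h)

section Algebra

variable {V : Type} [AddCommGroup V] [Module E V] [FiniteDimensional E V]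

/-- If the eigenvalue is semisimple, then the space is the sum of invariants and the image. -/
theorem sum_of_ss (ν : V →ₗ[E] V) (h : ∀ v, ν (ν v) = 0 → ν v = 0) (v : V) :
    ∃ u w, ν u = 0 ∧ u + ν w = v := by
  have hd : Disjoint (LinearMap.ker ν) (LinearMap.range ν) := by
    rw [Submodule.disjoint_def]
    rintro x hx ⟨y, rfl⟩
    exact h y hx
  have ht : LinearMap.ker ν ⊔ LinearMap.range ν = ⊤ := by
    apply Submodule.eq_top_of_disjoint _ _ _ hd
    rw [add_comm]
    exact (LinearMap.finrank_range_add_finrank_ker ν).ge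
  have hv : v ∈ LinearMap.ker ν ⊔ LinearMap.range ν := by rw [ht]; trivial
  obtain ⟨u, hu, x, ⟨w, rfl⟩, huw⟩ := Submodule.mem_sup.mp hv
  exact ⟨u, w, hu, huw⟩

end Algebra

variable (T : Theories F E)

theorem tbL (j : ℤ) (X : FSch F) : TB T j X ↔
    ∀ i : ℤ, (∀ m, T.clL i j X m = 0 → m = 0) ∧
    (∀ v, T.nuL i j X v = 0 ↔ ∃ m, T.clL i j X m = v) ∧
    (∀ v, T.nuL i j X (T.nuL i j X v) = 0 → T.nuL i j X v = 0) := Iff.rfl

/-- the combined maps are bijective if and only if the statement holds -/
theorem tb_iff (j : ℤ) (X : FSch F) (hfin : ∀ i, FiniteDimensional E (T.V.G i j X)) :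
    TB T j X ↔ ∀ i, Function.Bijective (T.comb i j X) := by
  rw [tbL]
  constructor
  · intro h i
    have h0 := h i
    have h1 := h (i + 1)
    have := hfin (i + 1)
    constructor
    · rw [injective_iff_map_eq_zero]
      rintro ⟨a, b⟩ hab
      rw [comb_apply] at hab
      have e1 : T.clL i j X a = 0 := by
        have := congrArg (T.rhoL i j X) hab
        rw [map_add, rho_eps, add_zero, map_zero] at this
        exact this
      have ha : a = 0 := h0.1 a e1
      subst ha
      rw [map_zero, zero_add, eps_reg] at hab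
      obtain ⟨w, hw⟩ := (T.exDel i j X _).mp hab
      have hb : b = 0 := by
        apply h1.1 b
        rw [← hw]
        apply h1.2.2
        rw [hw]
        exact nu_cl T _ _ _ b
      rw [hb]
      rfl
    · intro c
      obtain ⟨a, ha⟩ := (h0.2.1 (T.rhoL i j X c)).mp ((T.exNu i j X _).mpr ⟨c, rfl⟩)
      obtain ⟨v, hv⟩ := (T.exRho i j X (c - T.regL i j X a)).mp (by
        rw [map_sub]
        exact sub_eq_zero.mpr ha.symm)
      obtain ⟨u, w, hu, huw⟩ := sum_of_ss (T.nuL (i + 1) j X) h1.2.2 v
      obtain ⟨b, hb⟩ := (h1.2.1 u).mp hu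
      refine ⟨(a, b), ?_⟩
      rw [comb_apply, eps_reg]
      change T.regL i j X a + T.delL i j X (T.clL (i + 1) j X b) = c
      have e2 : T.delL i j X (T.nuL (i + 1) j X w) = 0 := (T.exDel i j X _).mpr ⟨w, rfl⟩
      rw [hb]
      rw [← huw, map_add, e2, add_zero] at hv
      rw [hv]
      abel
  · intro h i
    obtain ⟨n, rfl⟩ : ∃ n : ℤ, i = n + 1 := ⟨i - 1, by ring⟩
    have h0 := h (n + 1)
    have h1 := h n
    have hz : ∀ m : T.M.G (n + 1) j X, T.delL n j X (T.clL (n + 1) j X m) = 0 → m = 0 := by
      intro m hm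
      have e1 : T.comb n j X (0, m) = 0 := by
        rw [comb_apply, eps_reg]
        change T.regL n j X 0 + T.delL n j X (T.clL (n + 1) j X m) = 0
        rw [hm, map_zero, add_zero]
      have e2 := h1.1 (e1.trans (map_zero _).symm)
      exact congrArg Prod.snd e2
    have hinj : ∀ m : T.M.G (n + 1) j X, T.clL (n + 1) j X m = 0 → m = 0 := by
      intro m hm
      apply hz
      rw [hm, map_zero]
    have hsurj : ∀ v : T.V.G (n + 1) j X, T.nuL (n + 1) j X v = 0 ↔
        ∃ m, T.clL (n + 1) j X m = v := by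
      intro v
      constructor
      · intro hv
        obtain ⟨c, rfl⟩ := (T.exNu _ _ _ v).mp hv
        obtain ⟨⟨a, b⟩, rfl⟩ := h0.2 c
        refine ⟨a, ?_⟩
        rw [comb_apply, map_add, rho_eps, add_zero]
        rfl
      · rintro ⟨m, rfl⟩
        exact nu_cl T _ _ _ m
    refine ⟨hinj, hsurj, ?_⟩
    intro v hv
    obtain ⟨m, hm⟩ := (hsurj _).mp hv
    have h2 : m = 0 := hz m ((T.exDel n j X _).mpr ⟨v, hm.symm⟩)
    rw [← hm, h2, map_zero]

variable {T}

/-- the combined maps of isomorphic groups -/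
theorem comb_key {X Y : FSch F} {s t : ℤ} (S : Shift T X Y s t) (i j i' j' : ℤ) (h : i' = i + s)
    (h' : j' = j + t) :
    Function.Bijective (T.comb i j X) ↔ Function.Bijective (T.comb i' j' Y) := by
  have h1 : i' + 1 = i + 1 + s := by rw [h]; ring
  let a0 : T.M.G i j X ≃ₗ[E] T.M.G i' j' Y := S.a i j i' j' h h'
  let a1 : T.M.G (i + 1) j X ≃ₗ[E] T.M.G (i' + 1) j' Y := S.a (i + 1) j (i' + 1) j' h1 h'
  let b0 : T.C.G i j X ≃ₗ[E] T.C.G i' j' Y := S.b i j i' j' h h'
  let b1 : T.C.G (i + 1) j X ≃ₗ[E] T.C.G (i' + 1) j' Y := S.b (i + 1) j (i' + 1) j' h1 h'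
  have r0 : ∀ m, T.regL i' j' Y (a0 m) = b0 (T.regL i j X m) := S.reg_a i j i' j' h h'
  have r1 : ∀ m, T.regL (i' + 1) j' Y (a1 m) = b1 (T.regL (i + 1) j X m) :=
    S.reg_a (i + 1) j (i' + 1) j' h1 h'
  have r2 : ∀ c, T.epsL i' j' Y (b1 c) = b0 (T.epsL i j X c) := S.eps_b i j i' j' h h' h1
  have hc : ∀ p : T.M.G i j X × T.M.G (i + 1) j X,
      T.comb i' j' Y (a0.prodCongr a1 p) = b0 (T.comb i j X p) := by
    rintro ⟨a, b⟩
    change T.comb i' j' Y (a0 a, a1 b) = _
    rw [comb_apply, comb_apply, map_add, r0, r1, r2]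
  have hfun : (T.comb i' j' Y) ∘ (a0.prodCongr a1) = b0 ∘ (T.comb i j X) := funext hc
  constructor
  · intro hb
    have h2 : Function.Bijective ((T.comb i' j' Y) ∘ (a0.prodCongr a1)) := by
      rw [hfun]
      exact b0.bijective.comp hb
    exact (Function.Bijective.of_comp_iff _ (a0.prodCongr a1).bijective).mp h2
  · intro hb
    have h2 : Function.Bijective (b0 ∘ (T.comb i j X)) := by
      rw [← hfun]
      exact hb.comp (a0.prodCongr a1).bijective
    exact (Function.Bijective.of_comp_iff' b0.bijective _).mp h2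

/-- Let `K ⊆ F` generate the ring `F`, `1 ∈ K` (if `F` is a prime field, `K = {1}` will do), and
call `x_a x_b - x_c`, `x_a + x_b - x_c` and `x_a - c`, `c ∈ K`, gates. For every weight `j` the
statement `TB` holds for all separated schemes of finite type over `F` if and only if it holds for
the complements of the zero sets of finite products of gates in affine spaces; and it holds for all
weights and all separated schemes of finite type if and only if it holds in all weights for the
smooth hypersurfaces `g_0 t_0 + ⋯ + g_r t_r = 1` of degree at most three in affine spaces, with gates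
`g_i`. -/
theorem result (T : Theories F E) (hT : Formalism T) (hfin : FiniteHomology T) (K : Set F)
    (hK : Subring.closure K = ⊤) (h1 : (1 : F) ∈ K) :
    (∀ j : ℤ,
      (∀ (X : Scheme.{0}) (f : X ⟶ Spec (CommRingCat.of F)), FT True F f → TB T j ⟨X, f⟩) ↔
      (∀ (n : ℕ) (h : MvPolynomial (Fin n) F), h ∈ Submonoid.closure {g | IsGate K g} →
        TB T j (Complement h))) ∧
    ((∀ (X : Scheme.{0}) (f : X ⟶ Spec (CommRingCat.of F)), FT True F f → ∀ j, TB T j ⟨X, f⟩) ↔
      (∀ (n r : ℕ) (g : Fin (r + 1) → MvPolynomial (Fin n) F), (∀ i, IsGate K (g i)) →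
        ∀ j, TB T j (SpecF (Cubic g)))) ∧
    (∀ (n r : ℕ) (g : Fin (r + 1) → MvPolynomial (Fin n) F), Smooth (str F (Cubic g))) := by
  let P : ℤ → ∀ X : Scheme.{0}, (X ⟶ Spec (CommRingCat.of F)) → Prop :=
    fun j X f => ∀ i, Function.Bijective (T.comb i j ⟨X, f⟩)
  have hP : ∀ j, IsDevissage True F (P j) := fun j =>
    { iso := by
        intro X Y e g hg hX i
        obtain ⟨S⟩ := hT.iso e g hg
        exact (comb_key S i j i j (by ring) (by ring)).mp (hX i)
      empty := by
        intro X f hX i
        have h3 := (hT.empty i j ⟨X, f⟩ hX).1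
        have h4 := (hT.empty (i + 1) j ⟨X, f⟩ hX).1
        have h5 := (hT.empty i j ⟨X, f⟩ hX).2
        exact ⟨fun a b _ => Subsingleton.elim a b, fun c => ⟨0, Subsingleton.elim _ _⟩⟩
      closed := by
        intro Z X U f i k hf hi hk hr hX hU m
        obtain ⟨L, hL⟩ := hT.localization f i k hf hi hk hr j
        exact L.closed hL (fun m => hX m) (fun m => hU m) m
      total := by
        intro Z X U f i k hf hi hk hr hZ hU m
        obtain ⟨L, hL⟩ := hT.localization f i k hf hi hk hr j
        exact L.total hL (fun m => hZ m) (fun m => hU m) m }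
  have hQ : IsDevissage True F (fun X f => ∀ j, P j X f) :=
    { iso := fun e g hg hX n => (hP n).iso e g hg (hX n)
      empty := fun f hX n => (hP n).empty f hX
      closed := fun f i j hf hi hj hr hX hU n => (hP n).closed f i j hf hi hj hr (hX n) (hU n)
      total := fun f i j hf hi hj hr hZ hU n => (hP n).total f i j hf hi hj hr (hZ n) (hU n) }
  have hA1 : A1 (fun X f => ∀ j, P j X f) := by
    intro A _ _ hA
    obtain ⟨S⟩ := hT.homotopy A hA
    constructor
    · intro h n i
      exact (comb_key S (i - 2) (n - 1) i n (by ring) (by ring)).mp (h (n - 1) (i - 2))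
    · intro h n i
      exact (comb_key S i n (i + 2) (n + 1) rfl rfl).mpr (h (n + 1) (i + 2))
  have htb : ∀ (j : ℤ) (X : Scheme.{0}) (f : X ⟶ Spec (CommRingCat.of F)), FT True F f →
      (TB T j ⟨X, f⟩ ↔ P j X f) := fun j X f hf => tb_iff T j ⟨X, f⟩ (fun i => hfin X f hf i j)
  refine ⟨fun j => ⟨fun h N h' _ => h _ (str F _) (ft_gate h'), fun h X f hf => ?_⟩,
    ⟨fun h N r g _ => h _ (str F (Cubic g)) (ft_hyp g), fun h X f hf => ?_⟩, fun N r g => ?_⟩
  · exact (htb j X f hf).mpr (all_of_gates hK h1 (hP j)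
      (fun N h' hh' => (htb j _ (str F _) (ft_gate h')).mp (h N h' hh')) f hf)
  · exact fun j => (htb j X f hf).mpr (all_of_cubics hK h1 hQ hA1
      (fun N r g hg => fun j => (htb j _ (str F (Cubic g)) (ft_hyp g)).mp (h N r g hg j)) f hf j)
  · have := smooth_mv F N
    exact hyp_smooth_scheme F _ g

end Pool.Agent.Results.MP_2ce3e7_ag.GateComplements
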