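import Pool.Agent.TH117.GN.Main

/-!
# The generalized conjecture of Tate and Beilinson for schemes generated by abelian varieties

Over an algebraic closure of the field with `p` elements each abelian variety is isogenous to the
reduction of an abelian variety of CM type (Honda, Tate). So an abelian variety over the field with
`p ^ a` elements is modelled by `RedAV`: a finite product of CM types `(E i, Φ i)` with Weil numbers
`π i ∈ E i` that satisfy the formula of Shimura and Taniyama; its cohomology of degree `n`, with
coefficients in an algebraically closed field `Ω`, consists of the alternating `n`-forms on
`Ω ⊗ H_1`, on which the Frobenius endomorphism acts by `π`.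

We consider (`IsGoodAV`) the abelian varieties `Y` that are, over an algebraic closure, isogenous to a
product of a supersingular abelian variety and of powers of the factors of an abelian variety `Z`
(any Newton polygons), where one of the following holds:

* the dimension of `Z` is at most five, and no two factors of `Z` form an exceptional pair: two
  non-Galois quartic CM fields with the same Galois closure, or CM fields of degrees 2 and 8, with a
  special relation between the Frobenius eigenvalues (`IsExceptionalPair`);
* the factors of `Z` (in any number) have dimension at most three, and two factors whose CM fields
  have the same Galois closure are isogenous, unless these fields are Galois over `ℚ` or one of the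
  two factors is supersingular.

`Homology Ω V` are data of motivic homology `M X i j = H_i^M(X, ℚ(j))` (higher Chow groups) and of
`ℓ`-adic homology `E X i j = H_i(X, ℚ_ℓ(j))` (coefficients extended to `Ω`) of schemes `X` over a
finite field, with the Frobenius and the regulator. The class `Generated` contains the abelian
varieties above, it contains the schemes whose motives are direct summands of finite sums of twists
of motives of members, and it contains all of `Z`, `X`, `U = X ∖ Z` if it contains two of them.

The theorem: for all schemes `X` of this class - smooth or not, proper or not - and all `i`, `j` the
regulator induces an isomorphism of `H_i^M(X, ℚ(j)) ⊗ Ω` with the space of the Frobenius invariant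
elements in `H_i(X, ℚ_ℓ(j)) ⊗ Ω`, and the eigenvalue one of the Frobenius on it is semisimple.

Properties of the theory of cycles that are used for the abelian varieties `Y` (`IsChow`,
`IsMotivic`): Poincaré duality, the formal properties of correspondences, the nilpotence of
homologically trivial correspondences (Kimura), the operation of the Frobenius endomorphism on higher
Chow groups, the vanishing of the higher rational `K`-groups of a finite field (Quillen), and the
algebraicity of the classes in `Alg` (theorems of Tate and Markman). The passage from the Tate
conjecture to all degrees is due to Soulé, Geisser, Kahn and Jannsen.
-/

namespace Pool.Agent.Results.MP_2ce3e7_ag.GeneratedByAbelian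

open Pool.Agent.W495.TA Pool.Agent.W495.FM Pool.Agent.TH117.GN

/-- Jannsen's conjecture `TB(X)` for all members of the class generated by the abelian varieties
`IsGoodAV`. -/
theorem result (p : ℕ) [Fact p.Prime] (ν : PadicAlgCl p ≃+* ℂ) (Ω : Type) [Field Ω]
    [IsAlgClosed Ω] [CharZero Ω] (V : Type) (T : Homology Ω V) (hT : IsHomology T) (X : V)
    (hX : Generated T (IsGoodAbelian p ν T) X) : TB T X :=
  tb_good hT hX

end Pool.Agent.Results.MP_2ce3e7_ag.GeneratedByAbelian
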